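import Pool.Agent.Hhelper43.Mid.Measure
import Pool.Agent.Hhelper43.Mid.Hyp
import Pool.Agent.MidT.Final

set_option autoImplicit false

/-! # Volumes of midscribed tetrahedra: the 3-sphere and hyperbolic 3-space

For the unit 3-sphere and a geodesic ball of any centre and any radius `0 < r < π`, `r ≠ π/2`,
the infimum of the volumes of the tetrahedra midscribed to the ball is `0` and the supremum is
`π²`; for `r = π/2` there is no such tetrahedron. In hyperbolic 3-space the infimum is `0`, and the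
supremum, which is never attained, is
* `W3 (3 + √(12 - 4 / sinh² r))` if `1/2 ≤ sinh² r`,
* the maximum of `W1 (2 / (√3 tanh r) - 1)`, `W2 (1 / (2 sinh² r))` and, if `1/3 ≤ sinh² r`,
  `W3 (3 - √(12 - 4 / sinh² r))`, if `sinh² r < 1/2`.
Here `W1 k = 3 √3 ∫_k^∞ arcoth x / (3 x² + 1) dx`,
`W2 k = 3 ∫_k^∞ arcoth x / ((1 + x) √(1 + 2 x)) dx`,
`W3 k = W2 1 - (3/2) ∫_1^k arcoth x / √((7 - x) (1 + x)) dx`. -/

open Pool.Agent.Hhelper43.Mid Pool.Agent.MidT

namespace Pool.Agent.Results.MP_9083f3_gt.FullAnswer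

theorem result :
    (∀ c : E4, ‖c‖ = 1 → ∀ r : ℝ, 0 < r → r < Real.pi → r ≠ Real.pi / 2 →
      IsGLB (sphVolumes c r) 0 ∧ IsLUB (sphVolumes c r) (ENNReal.ofReal (Real.pi ^ 2))) ∧
    (∀ c : E4, ‖c‖ = 1 → ∀ v : Fin 4 → E4, ¬ SphMidscribed c (Real.pi / 2) v) ∧
    (∀ r : ℝ, 0 < r → IsGLB (hypVolumes r) 0) ∧
    (∀ r : ℝ, 0 < r → Real.sinh r ^ 2 < 1 / 2 →
      IsLUB (hypVolumes r) (ENNReal.ofReal
        (max (max (W1 (2 / (Real.sqrt 3 * Real.tanh r) - 1)) (W2 (1 / (2 * Real.sinh r ^ 2))))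
          (if 1 / 3 ≤ Real.sinh r ^ 2 then W3 (3 - Real.sqrt (12 - 4 / Real.sinh r ^ 2))
            else 0)))) ∧
    (∀ r : ℝ, 0 < r → 1 / 2 ≤ Real.sinh r ^ 2 →
      IsLUB (hypVolumes r) (ENNReal.ofReal
        (W3 (3 + Real.sqrt (12 - 4 / Real.sinh r ^ 2))))) ∧
    (∀ r : ℝ, 0 < r → sSup (hypVolumes r) ∉ hypVolumes r) := by
  refine ⟨fun c hc r h0 h1 h2 => ⟨isGLB_sphVolumes c hc r h0 h1 h2,
    isLUB_sphVolumes c hc r h0 h1 h2⟩, not_midscribed_hemisphere, isGLB_hypVolumes,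
    isLUB_small, isLUB_large, ?_⟩
  intro r hr hmem
  obtain ⟨v, hv, he⟩ := hmem
  rcases lt_or_ge (Real.sinh r ^ 2) (1 / 2) with h | h
  · have h1 := not_attained r hr _ (le_small r hr h) v hv
    rw [(isLUB_small r hr h).sSup_eq] at he
    exact absurd he h1.ne'
  · have h1 := not_attained r hr _ (le_large r hr h) v hv
    rw [(isLUB_large r hr h).sSup_eq] at he
    exact absurd he h1.ne'

end Pool.Agent.Results.MP_9083f3_gt.FullAnswer
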